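import Pool.Graph.R_pool_sql_team_seeded_c8625f6e.K4H8.JG.Law
import Pool.Graph.R_pool_sql_team_seeded_c8625f6e.K4H8.JG.Smo4
import Pool.Graph.R_seed8.Y746.OJ.RV
import Pool.Graph.R_seed8.Y815.OJ.AP
import Pool.Graph.R_seed8.Y37.OJ.GA
import Pool.Graph.R_seed8.Y141.SW.DerMain
import Pool.Graph.R_seed8.Y228.SW.EF
import Pool.Graph.R_seed8.Y248.SW.KER
import Pool.Graph.R_seed8.Y274.SW.SM
import Pool.Graph.R_seed8.Y41.SW.FM
import Pool.Graph.R_seed8.Y498.SW.TI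
import Pool.Graph.R_seed8.Y833.SW.Di
import Pool.Graph.R_seed8.Y840.SW.MVB
import Pool.Graph.R_seed8.Y895.SW.BVDX
import Pool.Graph.R_seed8.Y240.SW.DF
import Pool.Graph.R_seed8.Y627.SW.ER1
import Pool.Graph.R_seed8.Y627.SW.MN
import Pool.Graph.R_seed8.Y655.SW.Ers0
import Pool.Graph.R_seed8.Y655.SW.Har
import Pool.Graph.R_seed8.Y655.SW.MC
import Pool.Graph.R_seed8.Y655.SW.Trk
import Pool.Agent.H493.BS.Dens

set_option autoImplicit false

/-! Assembly of the project JG (joint Gaussian law of the derivative and of the argument at the simple zeros). -/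

namespace Pool.Agent.H313.JG

open Filter Topology MeasureTheory Complex H370 TH803UC TH803CL ProbabilityTheory
open Pool.Agent.Y745.SW Pool.Agent.K4H8.JG

noncomputable section

theorem dens : P_DENS := by
  obtain ⟨C, hC, h⟩ := Pool.Agent.H493.BS.dens
  refine ⟨1, C, 10, one_pos, hC, le_rfl, fun T hT => ?_⟩
  have hL : 0 < Real.log T := Real.log_pos (by linarith)
  refine le_trans (Finset.sum_le_sum fun s hs => ?_) (h T T (2 * T) (Real.log T) (by linarith) (by linarith) le_rfl le_rfl)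
  refine mul_le_mul_of_nonneg_left ?_ (Nat.cast_nonneg _)
  have h1 : |(zz s).im| = |s.re - 1 / 2| := by rw [zz_im, abs_neg]
  rw [h1, one_mul, mul_comm]
  have h2 : 1 ≤ (1 + Real.log T * |s.re - 1 / 2|) ^ 2 := by
    have : 0 ≤ Real.log T * |s.re - 1 / 2| := by positivity
    nlinarith
  exact le_mul_of_one_le_left (Real.exp_pos _).le h2

theorem rv : Pool.Agent.Y746.OJ.S_RV := by
  exact Pool.Agent.Y746.OJ.t_RV Pool.Agent.Y815.OJ.t_AP Pool.Agent.Y37.OJ.t_GA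

theorem ef : P_EF := Pool.Agent.Y228.SW.t_EF
theorem mvb : P_MVB := Pool.Agent.Y840.SW.t_MVB
theorem ers : P_ERS := Pool.Agent.Y655.SW.ers_of dens Pool.Agent.Y627.SW.t_ER1

theorem blk : P_BLK := Pool.Agent.Y745.SW.blk good_zeta Pool.Agent.Y248.SW.t_KER Pool.Agent.Y833.SW.t_DI ers
  Pool.Agent.Y655.SW.t_TRK Pool.Agent.Y627.SW.t_MN Pool.Agent.Y240.SW.t_DF ef
  (Pool.Agent.Y274.SW.t_SM mvb ef)

theorem ind2 : P_IND2 := t_IND2 (Pool.Agent.Y41.SW.t_FM mvb Pool.Agent.Y655.SW.t_MC)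
  (Pool.Agent.Y498.SW.t_TI mvb Pool.Agent.Y655.SW.t_MC)

theorem der : P_DER := Pool.Agent.Y141.SW.t_DER Pool.Agent.Y655.SW.t_HAR Pool.Agent.Y895.SW.t_BV
  Pool.Agent.Y895.SW.t_DX

theorem be : P_BE := fun _ _ _ hh hε hη => badE Pool.Agent.Y248.SW.t_KER mvb Pool.Agent.Y895.SW.t_DX rv dens hh hε hη

/-- the joint law, unconditionally -/
theorem law (c0 : ℝ) {U : Set ℂ} (hU : IsOpen U) {ε : ℝ} (hε : 0 < ε) :
    ∃ δ : ℝ, 0 < δ ∧ ∃ X0 : ℝ, ∀ X : ℝ, X0 ≤ X →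
    ((2 - cMTinv) * (stdGaussian ℂ).real U - ε) * (NN riemannZeta 0 X : ℝ) ≤ (PQn (Qs2 U c0 δ) 0 X : ℝ) :=
  law2 good_zeta blk ind2 Pool.Agent.Y895.SW.t_BV der be c0 hU hε

end

end Pool.Agent.H313.JG
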