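import Pool.Graph.R_pool_sql_team_seeded_c8625f6e.K4H8.JG.Smo4
import Pool.Graph.R_seed8.Y895.SW.BVDX

set_option autoImplicit false

/-! Increments of the remainder term over short intervals, in mean. -/

namespace Pool.Agent.H313.JG

open Filter Topology MeasureTheory Complex
open H370 (zset mult NN Zf zz mem_Zf good_zeta zz_im NN_eq NN_add NN_mono zcount nn_asymp)
open Pool.Agent.Y745.SW (P_KER P_MVB Py Px)
open Pool.Agent.Y895.SW (D bP Py_eq)
open Pool.Agent.Y746.OJ (S_RV)
open Pool.Agent.K4H8.JG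

noncomputable section

lemma Em_inc {T : ℝ} (hT : 10 ≤ T) {x y : ℝ} (hx1 : T ≤ x) (hxy : x ≤ y) (hy2 : y ≤ 2 * T) :
    Em y - Em x ≤ Real.log T / (2 * Real.pi) * (y - x) := by
  have hpi := Real.pi_gt_three
  have hpi4 := Real.pi_lt_four
  have hd : ∀ z ∈ Set.Icc T (2 * T), HasDerivWithinAt Em (Real.log (z / (2 * Real.pi)) / (2 * Real.pi))
      (Set.Icc T (2 * T)) z := by
    intro z hz
    have hz0 : 0 < z := by linarith [hz.1]
    have h1 : HasDerivAt (fun z : ℝ => z / (2 * Real.pi)) (1 / (2 * Real.pi)) z := by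
      simpa using (hasDerivAt_id z).div_const (2 * Real.pi)
    have h2 := h1.log (by positivity)
    have h3 := (h1.mul h2).sub h1
    have h4 : HasDerivAt Em (1 / (2 * Real.pi) * Real.log (z / (2 * Real.pi)) +
      z / (2 * Real.pi) * (1 / (2 * Real.pi) / (z / (2 * Real.pi))) - 1 / (2 * Real.pi)) z := h3
    refine (h4.congr_deriv ?_).hasDerivWithinAt
    field_simp
    ring
  have hb : ∀ z ∈ Set.Icc T (2 * T), ‖Real.log (z / (2 * Real.pi)) / (2 * Real.pi)‖ ≤
      Real.log T / (2 * Real.pi) := by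
    intro z hz
    have hz0 : 0 < z := by linarith [hz.1]
    have h1 : 1 ≤ z / (2 * Real.pi) := by
      rw [le_div_iff₀ (by positivity)]
      linarith [hz.1]
    have h2 : z / (2 * Real.pi) ≤ T := by
      rw [div_le_iff₀ (by positivity)]
      nlinarith [hz.2]
    have h3 := Real.log_nonneg h1
    have h4 : Real.log (z / (2 * Real.pi)) ≤ Real.log T := Real.log_le_log (by positivity) h2
    rw [Real.norm_of_nonneg (by positivity)]
    gcongr
  have := Convex.norm_image_sub_le_of_norm_hasDerivWithin_le hd hb (convex_Icc _ _) ⟨hx1, by linarith⟩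
    ⟨by linarith, hy2⟩
  rw [Real.norm_eq_abs, Real.norm_eq_abs, abs_of_nonneg (by linarith : 0 ≤ y - x)] at this
  exact (le_abs_self _).trans this

/-- coefficients of an increment -/
def bu (u : ℝ) (b : ℕ → ℂ) (n : ℕ) : ℂ := b n * ((n : ℂ) ^ (-(u : ℂ) * I) - (n : ℂ) ^ ((u : ℂ) * I))

lemma D_inc (b : ℕ → ℂ) (X : ℕ) (t u : ℝ) : D b X (t + u) - D b X (t - u) = D (bu u b) X t := by
  unfold D bu
  rw [← Finset.sum_sub_distrib]
  refine Finset.sum_congr rfl fun n hn => ?_
  rw [Finset.mem_Icc] at hn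
  have hn0 : (n : ℂ) ≠ 0 := by
    have : n ≠ 0 := by omega
    exact_mod_cast this
  rw [show (-((t + u : ℝ) : ℂ) * I) = -(u : ℂ) * I + -(t : ℂ) * I by push_cast; ring,
    show (-((t - u : ℝ) : ℂ) * I) = (u : ℂ) * I + -(t : ℂ) * I by push_cast; ring,
    Complex.cpow_add _ _ hn0, Complex.cpow_add _ _ hn0]
  ring

lemma norm_inc (n : ℕ) (hn : 1 ≤ n) (u : ℝ) (hu : 0 ≤ u) :
    ‖(n : ℂ) ^ (-(u : ℂ) * I) - (n : ℂ) ^ ((u : ℂ) * I)‖ ^ 2 ≤ 4 * (u * Real.log n) := by
  have hn0 : (n : ℂ) ≠ 0 := by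
    have : n ≠ 0 := by omega
    exact_mod_cast this
  have hl : 0 ≤ Real.log n := Real.log_natCast_nonneg n
  set θ : ℝ := u * Real.log n with hθ
  have hθ0 : 0 ≤ θ := mul_nonneg hu hl
  have e1 : (n : ℂ) ^ ((u : ℂ) * I) = cexp ((θ : ℂ) * I) := by
    rw [Complex.cpow_def_of_ne_zero hn0, ← Complex.natCast_log, hθ]
    congr 1
    push_cast
    ring
  have e2 : (n : ℂ) ^ (-(u : ℂ) * I) = cexp (-(θ : ℂ) * I) := by
    rw [Complex.cpow_def_of_ne_zero hn0, ← Complex.natCast_log, hθ]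
    congr 1
    push_cast
    ring
  have e3 : cexp (-(θ : ℂ) * I) - cexp ((θ : ℂ) * I) = ((-2 * Real.sin θ : ℝ) : ℂ) * I := by
    have h1 := Complex.exp_mul_I (θ : ℂ)
    have h2 := Complex.exp_mul_I (-(θ : ℂ))
    rw [Complex.cos_neg, Complex.sin_neg] at h2
    rw [h1, h2]
    push_cast
    ring
  rw [e1, e2, e3, norm_mul, Complex.norm_I, mul_one, Complex.norm_real, Real.norm_eq_abs, sq_abs]
  have h1 : Real.sin θ ^ 2 ≤ |Real.sin θ| := by
    rw [← sq_abs]
    have := Real.abs_sin_le_one θ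
    have := abs_nonneg (Real.sin θ)
    nlinarith
  have h2 : |Real.sin θ| ≤ θ := by
    have := Real.abs_sin_le_abs (x := θ)
    rwa [abs_of_nonneg hθ0] at this
  nlinarith

lemma Py_inc (y : ℝ) (hy : 1 ≤ y) (u : ℝ) (hu : 0 ≤ u) (C : ℝ)
    (hC : ∀ N : ℕ, 1 ≤ N →
      |∑ p ∈ (Finset.Icc 1 N).filter Nat.Prime, Real.log p / p - Real.log N| ≤ C) (T1 T2 : ℝ) (h12 : T1 ≤ T2) :
    ∫ t in T1..T2, ‖Py y (t + u) - Py y (t - u)‖ ^ 2 ≤
      (T2 - T1 + 8 * ((⌊y⌋₊ : ℕ) : ℝ) * (1 + Real.log ((⌊y⌋₊ : ℕ) : ℝ))) * (4 * (u * (Real.log y + C))) := by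
  set X := ⌊y⌋₊ with hX
  have hX1 : 1 ≤ X := Nat.le_floor (by exact_mod_cast hy)
  have hC0 : 0 ≤ C := (abs_nonneg _).trans (hC 1 le_rfl)
  have hlogX : Real.log X ≤ Real.log y :=
    Real.log_le_log (by exact_mod_cast hX1) (Nat.floor_le (by linarith))
  have hlogX0 : 0 ≤ Real.log X := Real.log_natCast_nonneg X
  have e : ∀ t : ℝ, ‖Py y (t + u) - Py y (t - u)‖ ^ 2 = ‖D (bu u (bP y)) X t‖ ^ 2 := by
    intro t
    rw [Py_eq y (t + u) X le_rfl, Py_eq y (t - u) X le_rfl, D_inc]
  simp_rw [e]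
  have h1 := H370.mean_value (bu u (bP y)) X T1 T2 h12
  refine h1.trans (mul_le_mul_of_nonneg_left ?_ ?_)
  · have h2 : ∀ n ∈ Finset.Icc 1 X, ‖bu u (bP y) n‖ ^ 2 ≤
        4 * (u * (if n.Prime then Real.log n / n else 0)) := by
      intro n hn
      rw [Finset.mem_Icc] at hn
      have hn0 : (0:ℝ) < n := by exact_mod_cast hn.1
      unfold bu bP
      by_cases hp : n.Prime
      · rw [if_pos ⟨hp, hn.2⟩, if_pos hp, norm_mul, mul_pow, Pool.Agent.Y895.SW.norm_cpow_half n hn.1]
        have h3 := norm_inc n hn.1 u hu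
        calc 1 / (n:ℝ) * ‖(n : ℂ) ^ (-(u : ℂ) * I) - (n : ℂ) ^ ((u : ℂ) * I)‖ ^ 2 ≤
            1 / (n:ℝ) * (4 * (u * Real.log n)) := mul_le_mul_of_nonneg_left h3 (by positivity)
          _ = 4 * (u * (Real.log n / n)) := by ring
      · rw [if_neg (fun h => hp h.1), if_neg hp]
        simp
    refine (Finset.sum_le_sum h2).trans ?_
    rw [← Finset.mul_sum, ← Finset.mul_sum, ← Finset.sum_filter]
    have h5 := (abs_le.1 (hC X hX1)).2
    have h6 : ∑ p ∈ (Finset.Icc 1 X).filter Nat.Prime, Real.log p / p ≤ Real.log y + C := by linarith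
    have := mul_le_mul_of_nonneg_left h6 hu
    linarith
  · have : 0 ≤ T2 - T1 := by linarith
    positivity

/-- the increments of the remainder term, in mean -/
theorem inc_mean (hKER : P_KER) (hMVB : P_MVB) (hRV : S_RV) (hdens : P_DENS) : ∃ C1 : ℝ, 0 < C1 ∧
    ∀ h : ℝ, 1 ≤ h → ∀ᶠ T : ℝ in atTop,
      ∫ t in (T + Real.log T + 1)..(2 * T - Real.log T - 1),
        |E1 (t + h / Real.log T) - E1 (t - h / Real.log T)| ≤ C1 * Real.sqrt h * T := by
  obtain ⟨δ, C, T0, hδ, hδ1, hC, hT0, hapx⟩ := apx hKER hMVB hRV hdens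
  obtain ⟨Cm, hCm⟩ := Pool.Agent.Helper256.KM.mertens_log
  have hCm0 : 0 ≤ Cm := (abs_nonneg _).trans (hCm 1 le_rfl)
  refine ⟨2 * C + 7, by positivity, fun h hh => ?_⟩
  have hlin : ∀ᶠ T : ℝ in atTop, Real.log T ≤ T / 4 := by
    have h1 := Real.isLittleO_log_id_atTop.def (c := 1 / 4) (by norm_num)
    filter_upwards [h1, eventually_ge_atTop (1:ℝ)] with T hT hT1
    rw [Real.norm_eq_abs, Real.norm_eq_abs, id, abs_of_pos (by linarith : 0 < T)] at hT
    have := le_abs_self (Real.log T)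
    linarith
  filter_upwards [hlin, Pool.Agent.Y895.SW.ev_X, Real.tendsto_log_atTop.eventually_ge_atTop (h + 2 * Cm + 10),
    eventually_ge_atTop T0, eventually_ge_atTop (256:ℝ)] with T tl tX tL tT0 tT
  obtain ⟨W, hWc, hW0, hWI, hW1, -⟩ := hapx T tT0
  set L := Real.log T with hL
  have hL0 : 0 < L := by linarith
  have hT0' : 0 < T := by linarith
  set u := h / L with hu
  have hu0 : 0 ≤ u := by positivity
  have hu1 : u ≤ 1 := by rw [hu, div_le_one hL0]; linarith
  set a := T + L + 1 with ha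
  set b := 2 * T - L - 1 with hb
  have hab : a ≤ b := by rw [ha, hb]; linarith
  set y := T ^ δ with hy
  have hy1 : 1 ≤ y := Real.one_le_rpow (by linarith) hδ.le
  have hly : Real.log y ≤ L / 4 := by
    rw [hy, Real.log_rpow hT0', ← hL]
    nlinarith
  have hs : 1 ≤ Real.sqrt h := by rw [Real.one_le_sqrt]; exact hh
  have hs0 : 0 < Real.sqrt h := by linarith
  have hss : Real.sqrt h * Real.sqrt h = h := Real.mul_self_sqrt (by linarith)
  -- the mean square
  have hms : ∫ t in T..(2 * T), ‖Py y (t + u) - Py y (t - u)‖ ^ 2 ≤ 6 * h * T := by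
    have h1 := Py_inc y hy1 u hu0 Cm hCm T (2 * T) (by linarith)
    have hX : ((⌊y⌋₊ : ℕ) : ℝ) ≤ 2 * T ^ (1 / 4 : ℝ) := by
      have h2 : ((⌊y⌋₊ : ℕ) : ℝ) ≤ y := Nat.floor_le (by linarith)
      have h3 : y ≤ T ^ (1 / 4 : ℝ) := Real.rpow_le_rpow_of_exponent_le (by linarith) hδ1
      have h4 : 0 < T ^ (1 / 4 : ℝ) := by positivity
      linarith
    have h2 := tX _ hX
    have h3 : u * (Real.log y + Cm) ≤ h := by
      have h4 : Real.log y + Cm ≤ L := by linarith
      calc u * (Real.log y + Cm) ≤ u * L := mul_le_mul_of_nonneg_left h4 hu0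
        _ = h := by rw [hu]; field_simp
    have h5 : 0 ≤ u * (Real.log y + Cm) := mul_nonneg hu0 (add_nonneg (Real.log_nonneg hy1) hCm0)
    have h6 : 0 ≤ 8 * ((⌊y⌋₊ : ℕ) : ℝ) * (1 + Real.log ((⌊y⌋₊ : ℕ) : ℝ)) := by
      have := Real.log_natCast_nonneg ⌊y⌋₊
      positivity
    refine h1.trans ?_
    calc (2 * T - T + 8 * ((⌊y⌋₊ : ℕ) : ℝ) * (1 + Real.log ((⌊y⌋₊ : ℕ) : ℝ))) * (4 * (u * (Real.log y + Cm))) ≤
        (T + T / 2) * (4 * h) := by
          refine mul_le_mul (by linarith) (by linarith) (by positivity) (by linarith)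
      _ = 6 * h * T := by ring
  have hPc : Continuous (fun t : ℝ => ‖Py y (t + u) - Py y (t - u)‖ ^ 2) := by
    have := Py_cont y
    fun_prop
  have hms' : ∫ t in a..b, ‖Py y (t + u) - Py y (t - u)‖ ^ 2 ≤ 6 * h * T := by
    refine le_trans ?_ hms
    exact intervalIntegral.integral_mono_interval (by rw [ha]; linarith) hab (by rw [hb]; linarith)
      (Eventually.of_forall fun t => by show 0 ≤ ‖Py y (t + u) - Py y (t - u)‖ ^ 2; positivity)
      (hPc.intervalIntegrable _ _)
  -- the functions `W`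
  have hWp : ∫ t in a..b, W (t + u) ≤ C * T := by
    rw [intervalIntegral.integral_comp_add_right W u]
    refine le_trans ?_ hWI
    exact intervalIntegral.integral_mono_interval (by rw [ha]; linarith) (by linarith) (by rw [hb]; linarith)
      (Eventually.of_forall fun t => hW0 t) (hWc.intervalIntegrable _ _)
  have hWm : ∫ t in a..b, W (t - u) ≤ C * T := by
    rw [intervalIntegral.integral_comp_sub_right W u]
    refine le_trans ?_ hWI
    exact intervalIntegral.integral_mono_interval (by rw [ha]; linarith) (by linarith) (by rw [hb]; linarith)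
      (Eventually.of_forall fun t => hW0 t) (hWc.intervalIntegrable _ _)
  -- pointwise
  have hpt : ∀ t ∈ Set.Icc a b, |E1 (t + u) - E1 (t - u)| ≤
      W (t + u) + W (t - u) + (Real.sqrt h + 1 / Real.sqrt h * ‖Py y (t + u) - Py y (t - u)‖ ^ 2) := by
    intro t ht
    have h1 := hW1 (t + u) (by linarith [ht.1]) (by linarith [ht.2])
    have h2 := hW1 (t - u) (by linarith [ht.1]) (by linarith [ht.2])
    have h3 : |(Py y (t + u)).im / Real.pi - (Py y (t - u)).im / Real.pi| ≤ ‖Py y (t + u) - Py y (t - u)‖ := by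
      rw [← sub_div, abs_div, abs_of_pos Real.pi_pos]
      have h8 : |(Py y (t + u)).im - (Py y (t - u)).im| ≤ ‖Py y (t + u) - Py y (t - u)‖ := by
        rw [← Complex.sub_im]
        exact Complex.abs_im_le_norm _
      exact (div_le_self (abs_nonneg _) (by linarith [Real.pi_gt_three])).trans h8
    have h4 : ‖Py y (t + u) - Py y (t - u)‖ ≤ Real.sqrt h + 1 / Real.sqrt h * ‖Py y (t + u) - Py y (t - u)‖ ^ 2 := by
      set z := ‖Py y (t + u) - Py y (t - u)‖
      have hz : 0 ≤ z := norm_nonneg _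
      have h5 : 0 ≤ (Real.sqrt h - z) ^ 2 / Real.sqrt h := by positivity
      have e : (Real.sqrt h - z) ^ 2 / Real.sqrt h = Real.sqrt h - 2 * z + 1 / Real.sqrt h * z ^ 2 := by
        field_simp
        ring
      rw [e] at h5
      linarith
    have e : E1 (t + u) - E1 (t - u) = (E1 (t + u) - (Py y (t + u)).im / Real.pi) -
        (E1 (t - u) - (Py y (t - u)).im / Real.pi) +
        ((Py y (t + u)).im / Real.pi - (Py y (t - u)).im / Real.pi) := by ring
    rw [e]
    refine (abs_add_le _ _).trans (add_le_add ((abs_sub _ _).trans (add_le_add h1 h2)) (h3.trans h4))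
  have hi1 : IntervalIntegrable (fun t => |E1 (t + u) - E1 (t - u)|) volume a b := by
    have h1 : IntervalIntegrable (fun t => E1 (t + u)) volume a b := by
      have := (E1_int (a + u) (b + u)).comp_add_right u
      simpa using this
    have h2 : IntervalIntegrable (fun t => E1 (t - u)) volume a b := by
      have := (E1_int (a - u) (b - u)).comp_sub_right u
      simpa using this
    exact (h1.sub h2).abs
  have hcW1 : Continuous (fun t => W (t + u)) := by fun_prop
  have hcW2 : Continuous (fun t => W (t - u)) := by fun_prop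
  have hmono := intervalIntegral.integral_mono_on hab hi1
    (Continuous.intervalIntegrable (by fun_prop) a b) hpt
  refine hmono.trans ?_
  rw [intervalIntegral.integral_add (Continuous.intervalIntegrable (by fun_prop) _ _)
    (Continuous.intervalIntegrable (by fun_prop) _ _),
    intervalIntegral.integral_add (hcW1.intervalIntegrable _ _) (hcW2.intervalIntegrable _ _),
    intervalIntegral.integral_add (Continuous.intervalIntegrable (by fun_prop) _ _)
    (Continuous.intervalIntegrable (by fun_prop) _ _),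
    intervalIntegral.integral_const, intervalIntegral.integral_const_mul, smul_eq_mul]
  have h1 : (b - a) * Real.sqrt h ≤ T * Real.sqrt h := by
    refine mul_le_mul_of_nonneg_right ?_ hs0.le
    rw [ha, hb]; linarith
  have h2 : 1 / Real.sqrt h * ∫ t in a..b, ‖Py y (t + u) - Py y (t - u)‖ ^ 2 ≤ 6 * Real.sqrt h * T := by
    calc 1 / Real.sqrt h * ∫ t in a..b, ‖Py y (t + u) - Py y (t - u)‖ ^ 2 ≤ 1 / Real.sqrt h * (6 * h * T) :=
          mul_le_mul_of_nonneg_left hms' (by positivity)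
      _ = 1 / Real.sqrt h * (6 * (Real.sqrt h * Real.sqrt h) * T) := by rw [hss]
      _ = 6 * Real.sqrt h * T := by field_simp
  have h3 : C * T ≤ C * Real.sqrt h * T := by
    have : C * T * 1 ≤ C * T * Real.sqrt h := mul_le_mul_of_nonneg_left hs (by positivity)
    linarith
  linarith

end

end Pool.Agent.H313.JG
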