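import Pool.Agent.H313.JG.Up1

set_option autoImplicit false

/-! Upper bounds for the number of zeros near a set of heights. -/

namespace Pool.Agent.H313.JG

open Filter Topology MeasureTheory Complex
open H370 (zset mult NN Zf zz mem_Zf good_zeta zz_im NN_eq NN_add NN_mono zcount nn_asymp)
open Pool.Agent.K4H8.JG

noncomputable section

open Classical in
lemma win_le {U1 U2 : ℝ} (hU1 : 1 ≤ U1) {G : Finset ℂ} (hG : G ⊆ Zf riemannZeta U1 U2) {u t : ℝ}
    (h1 : 1 ≤ t - u) :
    ∑ s ∈ G, (if t ∈ Set.Ico (s.im - u) (s.im + u) then (mult riemannZeta s : ℝ) else 0) ≤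
      NN riemannZeta (t - u) (t + u) := by
  rw [NN_eq good_zeta h1, ← Finset.sum_filter]
  push_cast
  refine Finset.sum_le_sum_of_subset_of_nonneg ?_ fun _ _ _ => Nat.cast_nonneg _
  intro s hs
  rw [Finset.mem_filter] at hs
  obtain ⟨hs1, hs2, hs3⟩ := hs
  have h2 := (mem_Zf good_zeta hU1).mp (hG hs1)
  exact (mem_Zf good_zeta h1).mpr ⟨h2.1, h2.2.1, by linarith, by linarith, h2.2.2.2.2⟩

lemma NN_inc {T t u : ℝ} (hT : 10 ≤ T) (hu : 0 ≤ u) (h1 : T ≤ t - u) (h2 : t + u ≤ 2 * T) :
    (NN riemannZeta (t - u) (t + u) : ℝ) ≤ u * (Real.log T / Real.pi) + |E1 (t + u) - E1 (t - u)| := by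
  have h3 := NN_add good_zeta (a := 1) (b := t - u) (c := t + u) le_rfl (by linarith) (by linarith)
  have h4 : (NN riemannZeta 1 (t + u) : ℝ) = NN riemannZeta 1 (t - u) + NN riemannZeta (t - u) (t + u) := by
    exact_mod_cast h3
  have h5 := Em_inc hT h1 (by linarith : t - u ≤ t + u) h2
  have h6 : (NN riemannZeta (t - u) (t + u) : ℝ) = (Em (t + u) - Em (t - u)) + (E1 (t + u) - E1 (t - u)) := by
    unfold E1
    linarith
  have h7 : Real.log T / (2 * Real.pi) * (t + u - (t - u)) = u * (Real.log T / Real.pi) := by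
    have := Real.pi_ne_zero
    field_simp
    ring
  have h8 := le_abs_self (E1 (t + u) - E1 (t - u))
  linarith

open Classical in
/-- the number of the zeros all of whose neighbours lie in `A` -/
theorem count_up {T U1 U2 u a b J : ℝ} (hT : 10 ≤ T) (hu : 0 < u) (hU1 : T ≤ U1) (ha : T + u ≤ a)
    (hb : b + u ≤ 2 * T) (hab : a ≤ b) {A : Set ℝ} (hA : MeasurableSet A) (hAI : A ⊆ Set.Icc a b)
    {G : Finset ℂ} (hG : G ⊆ Zf riemannZeta U1 U2) (hGA : ∀ s ∈ G, Set.Ico (s.im - u) (s.im + u) ⊆ A)
    (hJ : ∫ t in a..b, |E1 (t + u) - E1 (t - u)| ≤ J) :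
    2 * u * ∑ s ∈ G, (mult riemannZeta s : ℝ) ≤ volume.real A * (u * (Real.log T / Real.pi)) + J := by
  have hAf : volume A ≠ ⊤ := ne_top_of_le_ne_top (by simp) (measure_mono hAI)
  have hE : IntegrableOn (fun t => |E1 (t + u) - E1 (t - u)|) (Set.Icc a b) := by
    have h1 : IntervalIntegrable (fun t => E1 (t + u)) volume a b := by
      have := (E1_int (a + u) (b + u)).comp_add_right u
      simpa using this
    have h2 : IntervalIntegrable (fun t => E1 (t - u)) volume a b := by
      have := (E1_int (a - u) (b - u)).comp_sub_right u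
      simpa using this
    have h3 := (h1.sub h2).abs
    rw [intervalIntegrable_iff_integrableOn_Ioc_of_le hab, ← integrableOn_Icc_iff_integrableOn_Ioc] at h3
    exact h3
  have hEA : IntegrableOn (fun t => |E1 (t + u) - E1 (t - u)|) A := hE.mono_set hAI
  have hind : ∀ s ∈ G, Integrable (fun t => if t ∈ Set.Ico (s.im - u) (s.im + u) then
      (mult riemannZeta s : ℝ) else 0) (volume.restrict A) := by
    intro s _
    have e : (fun t => if t ∈ Set.Ico (s.im - u) (s.im + u) then (mult riemannZeta s : ℝ) else 0) =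
        (Set.Ico (s.im - u) (s.im + u)).indicator (fun _ => (mult riemannZeta s : ℝ)) := by
      funext t
      simp only [Set.indicator_apply]
    rw [e]
    exact (integrableOn_const hAf).indicator measurableSet_Ico
  have hint : ∫ t in A, ∑ s ∈ G, (if t ∈ Set.Ico (s.im - u) (s.im + u) then (mult riemannZeta s : ℝ) else 0) =
      2 * u * ∑ s ∈ G, (mult riemannZeta s : ℝ) := by
    rw [integral_finsetSum _ hind, Finset.mul_sum]
    refine Finset.sum_congr rfl fun s hs => ?_
    have e : (fun t => if t ∈ Set.Ico (s.im - u) (s.im + u) then (mult riemannZeta s : ℝ) else 0) =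
        (Set.Ico (s.im - u) (s.im + u)).indicator (fun _ => (mult riemannZeta s : ℝ)) := by
      funext t
      simp only [Set.indicator_apply]
    rw [e, setIntegral_indicator measurableSet_Ico, Set.inter_eq_right.2 (hGA s hs), setIntegral_const,
      smul_eq_mul, Real.volume_real_Ico_of_le (by linarith)]
    ring
  have hmono := setIntegral_mono_on (μ := volume) (s := A)
    (f := fun t => ∑ s ∈ G, (if t ∈ Set.Ico (s.im - u) (s.im + u) then (mult riemannZeta s : ℝ) else 0))
    (g := fun t => u * (Real.log T / Real.pi) + |E1 (t + u) - E1 (t - u)|)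
    (integrable_finsetSum _ hind) ((integrableOn_const hAf).add hEA) hA
    (fun t ht => by
      obtain ⟨h1, h2⟩ := hAI ht
      exact (win_le (by linarith) hG (by linarith)).trans (NN_inc hT hu.le (by linarith) (by linarith)))
  have hcA : IntegrableOn (fun _ : ℝ => u * (Real.log T / Real.pi)) A := integrableOn_const hAf
  rw [hint, integral_add hcA hEA, setIntegral_const, smul_eq_mul] at hmono
  have h3 : ∫ t in A, |E1 (t + u) - E1 (t - u)| ≤ J := by
    have h4 : ∫ t in A, |E1 (t + u) - E1 (t - u)| ≤ ∫ t in Set.Icc a b, |E1 (t + u) - E1 (t - u)| :=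
      setIntegral_mono_set hE (Eventually.of_forall fun t => abs_nonneg _) (Eventually.of_forall hAI)
    rw [integral_Icc_eq_integral_Ioc, ← intervalIntegral.integral_of_le hab] at h4
    exact h4.trans hJ
  linarith

lemma NN_steps : ∃ C : ℝ, 0 < C ∧ ∀ (x : ℝ) (n : ℕ), 3 ≤ x →
    (NN riemannZeta x (x + n) : ℝ) ≤ n * (C * Real.log (x + n)) := by
  obtain ⟨C, hC, h⟩ := zcount good_zeta
  refine ⟨C, hC, fun x n hx => ?_⟩
  induction n with
  | zero =>
    have : NN riemannZeta x (x + (0 : ℕ)) = 0 := by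
      rw [NN_eq good_zeta (by linarith)]
      refine Finset.sum_eq_zero fun s hs => ?_
      have := (mem_Zf good_zeta (by linarith)).mp hs
      have h1 := this.2.2.1
      have h2 := this.2.2.2.1
      push_cast at h2
      linarith
    rw [this]
    simp
  | succ n ih =>
    have h1 := NN_add good_zeta (a := x) (b := x + n) (c := x + (n + 1 : ℕ)) (by linarith) (by
      have : (0:ℝ) ≤ n := Nat.cast_nonneg n
      linarith) (by push_cast; linarith)
    have h2 : (NN riemannZeta (x + n) (x + (n + 1 : ℕ)) : ℝ) ≤ C * Real.log (x + (n + 1 : ℕ)) := by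
      have hn : (0:ℝ) ≤ n := Nat.cast_nonneg n
      have h3 := h (x + (n + 1 : ℕ)) (by push_cast; linarith)
      refine le_trans ?_ h3
      have h4 := NN_mono good_zeta (a := x + n) (b := x + (n + 1 : ℕ)) (a' := x + (n + 1 : ℕ) - 1)
        (b' := x + (n + 1 : ℕ) + 1) (by push_cast; linarith) (by push_cast; linarith) (by linarith)
      exact_mod_cast h4
    have h5 : Real.log (x + n) ≤ Real.log (x + (n + 1 : ℕ)) := by
      have hn : (0:ℝ) ≤ n := Nat.cast_nonneg n
      exact Real.log_le_log (by linarith) (by push_cast; linarith)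
    have h6 : (NN riemannZeta x (x + (n + 1 : ℕ)) : ℝ) = NN riemannZeta x (x + n) +
        NN riemannZeta (x + n) (x + (n + 1 : ℕ)) := by exact_mod_cast h1
    rw [h6]
    have h7 : (n:ℝ) * (C * Real.log (x + n)) ≤ n * (C * Real.log (x + (n + 1 : ℕ))) := by gcongr
    push_cast at h2 h7 ⊢
    nlinarith

/-- the zeros near the end points -/
lemma edges {ε : ℝ} (hε : 0 < ε) : ∀ᶠ T : ℝ in atTop,
    (NN riemannZeta T (T + Real.log T + 3) : ℝ) + NN riemannZeta (2 * T - Real.log T - 3) (2 * T) ≤
      ε * (T * Real.log T) := by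
  obtain ⟨C, hC, h⟩ := NN_steps
  have h1 := (Real.isLittleO_log_id_atTop.def (c := min (1 / 4) (ε / (40 * C))) (by positivity))
  filter_upwards [h1, Real.tendsto_log_atTop.eventually_ge_atTop 8, eventually_ge_atTop (100:ℝ)] with T hT tL tT
  set L := Real.log T with hL
  rw [Real.norm_eq_abs, Real.norm_eq_abs, id, abs_of_pos (by linarith : 0 < T), abs_of_pos (by linarith : 0 < L)] at hT
  have hT1 : L ≤ T / 4 := by
    have := mul_le_mul_of_nonneg_right (min_le_left (1 / 4) (ε / (40 * C))) (by linarith : 0 ≤ T)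
    linarith
  have hT2 : L * (40 * C) ≤ ε * T := by
    have h2 := mul_le_mul_of_nonneg_right (min_le_right (1 / 4) (ε / (40 * C))) (by linarith : 0 ≤ T)
    have h3 := hT.trans h2
    rw [div_mul_eq_mul_div, le_div_iff₀ (by positivity)] at h3
    exact h3
  set n := ⌈L + 3⌉₊ with hn
  have hn1 : L + 3 ≤ n := Nat.le_ceil _
  have hn2 : (n : ℝ) < L + 4 := by
    have := Nat.ceil_lt_add_one (by linarith : 0 ≤ L + 3)
    linarith
  have hlog : Real.log (3 * T) ≤ 2 * L := by
    rw [Real.log_mul (by norm_num) (by linarith), ← hL]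
    have : Real.log 3 ≤ 3 - 1 := Real.log_le_sub_one_of_pos (by norm_num)
    linarith
  have key : ∀ x : ℝ, 3 ≤ x → x + n ≤ 3 * T → (NN riemannZeta x (x + n) : ℝ) ≤ 20 * C * L * L := by
    intro x hx hx2
    refine (h x n hx).trans ?_
    have h4 : Real.log (x + n) ≤ 2 * L := (Real.log_le_log (by positivity) hx2).trans hlog
    have h5 : (n:ℝ) ≤ 2 * L := by linarith
    have h6 : 0 ≤ Real.log (x + n) := Real.log_nonneg (by linarith)
    calc (n:ℝ) * (C * Real.log (x + n)) ≤ (2 * L) * (C * (2 * L)) := by gcongr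
      _ = 4 * C * L * L := by ring
      _ ≤ 20 * C * L * L := by
          have : 0 ≤ C * L * L := by positivity
          linarith
  have k1 : (NN riemannZeta T (T + L + 3) : ℝ) ≤ 20 * C * L * L := by
    refine le_trans ?_ (key T (by linarith) (by linarith))
    have := NN_mono good_zeta (a := T) (b := T + L + 3) (a' := T) (b' := T + n) (by linarith) le_rfl (by linarith)
    exact_mod_cast this
  have k2 : (NN riemannZeta (2 * T - L - 3) (2 * T) : ℝ) ≤ 20 * C * L * L := by
    refine le_trans ?_ (key (2 * T - L - 3) (by linarith) (by linarith))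
    have := NN_mono good_zeta (a := 2 * T - L - 3) (b := 2 * T) (a' := 2 * T - L - 3) (b' := 2 * T - L - 3 + n)
      (by linarith) le_rfl (by linarith)
    exact_mod_cast this
  have : 40 * C * L * L ≤ ε * T * L := by
    have := mul_le_mul_of_nonneg_right hT2 (by linarith : 0 ≤ L)
    linarith
  linarith

end

end Pool.Agent.H313.JG
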